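import Pool.Agent.W751.RV.Stm

/-!
# The map is small on a disc of radius less than one
-/

set_option autoImplicit false

open Polynomial Filter Topology MeasureTheory

namespace Pool.Agent.W366.RV

open Pool.Agent.W751.CD Pool.Agent.W751.CV Pool.Agent.W751.RV

theorem ZN_nonneg (ρ : ℝ) (hρ : 0 < ρ) (N : ℕ) : 0 ≤ ZN ρ N := by
  unfold ZN hk
  positivity

theorem bdd (t : ℝ) (ht0 : 0 < t) (ht1 : t < 1) :
    ∃ C : ℝ, 0 < C ∧ ∀ N : ℕ, (N : ℝ) ^ 2 * t ^ N ≤ C := by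
  have h1 := tendsto_pow_const_mul_const_pow_of_abs_lt_one 2 (r := t)
    (by rw [abs_of_pos ht0]; exact ht1)
  obtain ⟨C, hC⟩ := h1.bddAbove_range
  refine ⟨max C 1, lt_max_of_lt_right one_pos, fun N => ?_⟩
  exact (hC ⟨N, rfl⟩).trans (le_max_left _ _)

theorem sm : S_SM := by
  intro hZN hCB hSQ ρ σ s κ hρ hσ hρs hs1 hsσ hκ
  have hs0 : 0 < s := hρ.trans_le hρs
  obtain ⟨K, hK0, hK⟩ := hSQ σ s hσ hs0 hsσ
  set t : ℝ := Real.sqrt s with ht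
  have ht0 : 0 < t := Real.sqrt_pos.2 hs0
  have hts : t ^ 2 = s := Real.sq_sqrt hs0.le
  have ht1 : t < 1 := by
    rw [ht, Real.sqrt_lt' one_pos, one_pow]
    exact hs1
  obtain ⟨C, hC0, hC⟩ := bdd t ht0 ht1
  refine ⟨(16 / κ ^ 2 + K) * C, t, by positivity, ht0, ht1, fun N hN => ?_⟩
  have hN1 : (1 : ℝ) ≤ N := by exact_mod_cast hN
  have hfin : IsFiniteMeasure (mu σ N) := ⟨by rw [(hZN σ N hσ).1]; exact ENNReal.ofReal_lt_top⟩
  have hZ1 := ZN_nonneg ρ hρ N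
  have hZ2 := ZN_nonneg σ hσ N
  set A : Set (Fin N → ℂ) := {z | ∃ w : ℂ, ‖w‖ ≤ s ∧ κ * t ^ N / 2 < ‖(P z).eval w‖} with hA
  set B : Set (Fin N → ℂ) := {q | ∃ w : ℂ, ‖w‖ ≤ s ∧ ‖(Q q).eval w‖ < t ^ N} with hB
  have hsub : {x : (Fin N → ℂ) × (Fin N → ℂ) | ∃ w : ℂ, ‖w‖ ≤ s ∧
      κ * ‖(Q x.2).eval w‖ ≤ ‖(P x.1).eval w‖} ⊆ (A ×ˢ Set.univ) ∪ (Set.univ ×ˢ B) := by
    rintro x ⟨w, hw, hx⟩
    by_cases hq : ‖(Q x.2).eval w‖ < t ^ N
    · exact Or.inr ⟨Set.mem_univ _, w, hw, hq⟩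
    · refine Or.inl ⟨⟨w, hw, ?_⟩, Set.mem_univ _⟩
      rw [not_lt] at hq
      have h1 : κ * t ^ N ≤ κ * ‖(Q x.2).eval w‖ := mul_le_mul_of_nonneg_left hq hκ.le
      have h2 : 0 < κ * t ^ N := by positivity
      linarith
  have hAm : mu ρ N A ≤ ENNReal.ofReal ((16 / κ ^ 2 * C) * t ^ N * ZN ρ N) := by
    refine (hCB ρ s (κ * t ^ N / 2) N hρ hρs (by positivity)).trans (ENNReal.ofReal_le_ofReal ?_)
    refine mul_le_mul_of_nonneg_right ?_ hZ1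
    have h1 : s ^ (2 * N) = t ^ N * t ^ N * t ^ N * t ^ N := by
      rw [← hts]; ring
    have h2 : ((N : ℝ) + 1) ^ 2 ≤ 4 * (N : ℝ) ^ 2 := by nlinarith
    have h3 : 0 < t ^ N := by positivity
    have h4 : ((N : ℝ) + 1) ^ 2 * s ^ (2 * N) / (κ * t ^ N / 2) ^ 2 =
        4 / κ ^ 2 * (((N : ℝ) + 1) ^ 2 * t ^ N) * t ^ N := by
      rw [h1]
      field_simp
      norm_num
    rw [h4]
    refine mul_le_mul_of_nonneg_right ?_ h3.le
    have h5 : ((N : ℝ) + 1) ^ 2 * t ^ N ≤ 4 * C := by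
      calc ((N : ℝ) + 1) ^ 2 * t ^ N ≤ 4 * (N : ℝ) ^ 2 * t ^ N :=
            mul_le_mul_of_nonneg_right h2 h3.le
        _ = 4 * ((N : ℝ) ^ 2 * t ^ N) := by ring
        _ ≤ 4 * C := mul_le_mul_of_nonneg_left (hC N) (by norm_num)
    calc 4 / κ ^ 2 * (((N : ℝ) + 1) ^ 2 * t ^ N) ≤ 4 / κ ^ 2 * (4 * C) :=
          mul_le_mul_of_nonneg_left h5 (by positivity)
      _ = 16 / κ ^ 2 * C := by ring
  have hBm : mu σ N B ≤ ENNReal.ofReal ((K * C) * t ^ N * ZN σ N) := by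
    refine (hK N hN (t ^ N) (by positivity)).trans (ENNReal.ofReal_le_ofReal ?_)
    refine mul_le_mul_of_nonneg_right ?_ hZ2
    have h3 : 0 < t ^ N := by positivity
    have h5 : (N : ℝ) * t ^ N ≤ C := by
      refine le_trans (mul_le_mul_of_nonneg_right ?_ h3.le) (hC N)
      nlinarith
    calc K * N * (t ^ N) ^ 2 = K * (N * t ^ N) * t ^ N := by ring
      _ ≤ K * C * t ^ N :=
        mul_le_mul_of_nonneg_right (mul_le_mul_of_nonneg_left h5 hK0.le) h3.le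
  have h0 : 0 ≤ t ^ N := by positivity
  have hc1 : 0 ≤ 16 / κ ^ 2 * C * t ^ N * ZN ρ N := by positivity
  have hc2 : 0 ≤ K * C * t ^ N * ZN σ N := by positivity
  calc mm ρ σ N {x | ∃ w : ℂ, ‖w‖ ≤ s ∧ κ * ‖(Q x.2).eval w‖ ≤ ‖(P x.1).eval w‖}
      ≤ mm ρ σ N ((A ×ˢ Set.univ) ∪ (Set.univ ×ˢ B)) := measure_mono hsub
    _ ≤ mm ρ σ N (A ×ˢ Set.univ) + mm ρ σ N (Set.univ ×ˢ B) := measure_union_le _ _
    _ = mu ρ N A * mu σ N Set.univ + mu ρ N Set.univ * mu σ N B := by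
        unfold mm
        rw [Measure.prod_prod, Measure.prod_prod]
    _ ≤ ENNReal.ofReal ((16 / κ ^ 2 * C) * t ^ N * ZN ρ N) * ENNReal.ofReal (ZN σ N) +
        ENNReal.ofReal (ZN ρ N) * ENNReal.ofReal ((K * C) * t ^ N * ZN σ N) := by
        rw [(hZN σ N hσ).1, (hZN ρ N hρ).1]
        exact add_le_add (mul_le_mul' hAm le_rfl) (mul_le_mul' le_rfl hBm)
    _ = ENNReal.ofReal ((16 / κ ^ 2 + K) * C * t ^ N * (ZN ρ N * ZN σ N)) := by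
        rw [← ENNReal.ofReal_mul hc1, ← ENNReal.ofReal_mul hZ1,
          ← ENNReal.ofReal_add (mul_nonneg hc1 hZ2) (mul_nonneg hZ1 hc2)]
        congr 1
        ring

end Pool.Agent.W366.RV
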